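import Mathlib

set_option autoImplicit false

namespace Pool.Agent.Results.MP_6c6cee_co.No

open Finset

/-- Sizes of maximal antichains of the Boolean lattice on `n` points that lie in the two
levels `l` and `l + 1` (maximality is with respect to the whole lattice). -/
def S (n l : ℕ) : Set ℕ :=
  {m | ∃ 𝒜 : Finset (Finset (Fin n)), (∀ X ∈ 𝒜, X.card = l ∨ X.card = l + 1) ∧
    IsAntichain (· ⊆ ·) (𝒜 : Set (Finset (Fin n))) ∧
    (∀ X ∉ 𝒜, ¬ IsAntichain (· ⊆ ·) (insert X (𝒜 : Set (Finset (Fin n))))) ∧ 𝒜.card = m}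

/-- The threshold `T(n,l)`. -/
def T (n l : ℕ) : ℤ := (n.choose (l + 1) : ℤ) - ((n : ℤ) - l - 1) * ⌈((n : ℚ) - l) / 2⌉

def tri (i : ℕ) : Finset (Fin 7) := univ.filter fun x =>
  (49833325420457480355003593301802777245422711507393878212159729291116103047 : ℕ).testBit (7 * i + x)

def N (i : ℕ) : ℕ :=
  (0x3c00000038800000192000000548000000d2000000e00800006402000015008000034020000182080000508200000c2080000248200000520800000c8200000e00002006400008015000020034000080182000200508000800c2000200248000800520002000c8000800600802001402008003008020009020080014080200030200800088802000122008000288020000620080000 >>> (35 * i)) % 2 ^ 35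

def C (U : ℕ) : Finset ℕ := (range 35).filter fun j => U.testBit j

def go : ℕ → ℕ → ℕ → Bool → Bool
  | _, 0, U, _ => (C U).card != 27
  | 0, _ + 1, _, _ => true
  | n + 1, k + 1, U, s => Nat.blt n k || (go n (k + 1) U s &&
      (if U &&& N n = 0 then go n k (U ||| N n) s else s || go n k (U ||| N n) true))

theorem chk : go 35 7 0 false = true := by decide +kernel

theorem hN : ∀ i < 35, (C (N i)).card = 4 := by decide +kernel

theorem C_or (U W : ℕ) : C (U ||| W) = C U ∪ C W := by
  ext j; simp only [C, mem_filter, mem_union, Nat.testBit_or, Bool.or_eq_true]; tauto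

def cov (U : ℕ) (A : Finset ℕ) : Finset ℕ := C U ∪ A.biUnion fun i => C (N i)

theorem cov_le (U : ℕ) (A : Finset ℕ) (hA : A ⊆ range 35) :
    (cov U A).card ≤ (C U).card + 4 * A.card := by
  refine (card_union_le _ _).trans (Nat.add_le_add_left (card_biUnion_le.trans ?_) _)
  rw [sum_congr rfl (fun i hi => hN i (mem_range.1 (hA hi))), sum_const, smul_eq_mul, mul_comm]

theorem cov_ins (U n : ℕ) (A : Finset ℕ) : cov U (insert n A) = cov (U ||| N n) A := by
  simp only [cov, biUnion_insert, C_or, union_assoc]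

theorem ov (U n : ℕ) (hn : n < 35) (h : U &&& N n ≠ 0) :
    (C (U ||| N n)).card ≤ (C U).card + 3 := by
  obtain ⟨j, hj⟩ := Nat.exists_testBit_of_ne_zero h
  rw [Nat.testBit_and, Bool.and_eq_true] at hj
  have hj35 : j < 35 := by
    have := hj.2
    unfold N at this
    rw [Nat.testBit_mod_two_pow, Bool.and_eq_true, decide_eq_true_eq] at this
    exact this.1
  have h1 : 0 < (C U ∩ C (N n)).card :=
    card_pos.2 ⟨j, by simp [C, hj35, hj.1, hj.2]⟩
  have h2 := card_union_add_card_inter (C U) (C (N n))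
  rw [C_or]
  rw [hN n hn] at h2
  omega

theorem go_spec : ∀ (n k U : ℕ) (s : Bool) (A : Finset ℕ), n ≤ 35 → go n k U s = true →
    A ⊆ range n → A.card = k → (C U).card + 4 * k + s.toNat ≤ 28 → (cov U A).card ≠ 27 := by
  intro n
  induction n with
  | zero =>
    intro k U s A _ h hA hk _
    have : A = ∅ := by simpa using hA
    subst this
    simp only [card_empty] at hk
    subst hk
    simpa [go, cov] using h
  | succ n ih =>
    intro k U s A hn h hA hk hc
    cases k with
    | zero =>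
      have : A = ∅ := card_eq_zero.1 hk
      subst this
      simpa [go, cov] using h
    | succ k =>
      have hle := card_le_card hA
      rw [card_range, hk] at hle
      simp only [go, Bool.or_eq_true, Bool.and_eq_true, Nat.blt_eq] at h
      rcases h with h | ⟨h1, h2⟩
      · omega
      by_cases hm : n ∈ A
      · have hsub : A.erase n ⊆ range n := by
          intro x hx
          have := mem_range.1 (hA (mem_of_mem_erase hx))
          have := ne_of_mem_erase hx
          exact mem_range.2 (by omega)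
        have hce : (A.erase n).card = k := by rw [card_erase_of_mem hm, hk]; rfl
        rw [← insert_erase hm, cov_ins]
        have h4 : (C (U ||| N n)).card ≤ (C U).card + 4 := by
          rw [C_or, ← hN n (by omega)]; exact card_union_le _ _
        split_ifs at h2 with h0
        · exact ih k _ s _ (by omega) h2 hsub hce (by omega)
        · have h3 := ov U n (by omega) h0
          cases s with
          | true =>
            have := cov_le (U ||| N n) (A.erase n)
              (hsub.trans (range_subset_range.2 (by omega)))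
            simp only [Bool.toNat_true] at hc
            omega
          | false =>
            simp only [Bool.false_or] at h2
            simp only [Bool.toNat_false] at hc
            exact ih k _ true _ (by omega) h2 hsub hce (by simp only [Bool.toNat_true]; omega)
      · refine ih (k + 1) U s A (by omega) h1 ?_ hk hc
        intro x hx
        have := mem_range.1 (hA hx)
        have : x ≠ n := fun e => hm (e ▸ hx)
        exact mem_range.2 (by omega)

theorem C0 : C 0 = ∅ := by simp [C]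

theorem key (A B : Finset ℕ) (hA : A ⊆ range 35) (hB : B ⊆ range 35)
    (h1 : cov 0 A = range 35 \ B) (h2 : cov 0 B = range 35 \ A) : A.card + B.card ≠ 15 := by
  intro h
  have a1 := cov_le 0 A hA
  have a2 := cov_le 0 B hB
  have e1 : (cov 0 A).card = 35 - B.card := by rw [h1, card_sdiff_of_subset hB, card_range]
  have e2 : (cov 0 B).card = 35 - A.card := by rw [h2, card_sdiff_of_subset hA, card_range]
  rw [C0, card_empty] at a1 a2
  by_cases h7 : A.card = 7
  · exact go_spec 35 7 0 false A le_rfl chk hA h7 (by simp [C0]) (by omega)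
  · exact go_spec 35 7 0 false B le_rfl chk hB (by omega) (by simp [C0]) (by omega)

theorem t_surj : ∀ s : Finset (Fin 7), s.card = 3 → ∃ i < 35, tri i = s := by decide +kernel
theorem t_surj' : ∀ s : Finset (Fin 7), s.card = 4 → ∃ i < 35, (tri i)ᶜ = s := by decide +kernel
theorem t_card : ∀ i < 35, (tri i).card = 3 ∧ (tri i)ᶜ.card = 4 := by decide +kernel
theorem t_inj : ∀ i < 35, ∀ j < 35, tri i = tri j → i = j := by decide +kernel
theorem t_adj : ∀ i < 35, ∀ j < 35, ((N i).testBit j = true ↔ tri i ⊆ (tri j)ᶜ) ∧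
    ((N j).testBit i = true ↔ tri i ⊆ (tri j)ᶜ) := by decide +kernel

theorem comp {n : ℕ} {𝒜 : Finset (Finset (Fin n))}
    (h : IsAntichain (· ⊆ ·) (𝒜 : Set (Finset (Fin n)))) {X : Finset (Fin n)} (hX : X ∉ 𝒜) :
    ¬ IsAntichain (· ⊆ ·) (insert X (𝒜 : Set (Finset (Fin n)))) ↔ ∃ Y ∈ 𝒜, X ⊆ Y ∨ Y ⊆ X := by
  constructor
  · intro hn
    by_contra hc
    push Not at hc
    exact hn (h.insert (fun b hb _ => (hc b hb).2) (fun b hb _ => (hc b hb).1))
  · rintro ⟨Y, hY, hXY⟩ ha
    have hne : X ≠ Y := fun e => hX (e ▸ hY)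
    rcases hXY with hXY | hXY
    · exact ha (Set.mem_insert _ _) (Set.mem_insert_of_mem _ hY) hne hXY
    · exact ha (Set.mem_insert_of_mem _ hY) (Set.mem_insert _ _) hne.symm hXY

theorem not15 : 15 ∉ S 7 3 := by
  rintro ⟨𝒜, hl, ha, hmax, hc⟩
  set A := (range 35).filter fun i => tri i ∈ 𝒜 with hA
  set B := (range 35).filter fun i => (tri i)ᶜ ∈ 𝒜 with hB
  have nsub : ∀ i < 35, ∀ j < 35, tri i ∈ 𝒜 → (tri j)ᶜ ∈ 𝒜 → ¬ tri i ⊆ (tri j)ᶜ := by
    intro i hi j hj h1 h2
    refine ha h1 h2 fun e => ?_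
    have := (t_card i hi).1
    have := (t_card j hj).2
    have := congrArg card e
    omega
  refine key A B (filter_subset _ _) (filter_subset _ _) ?_ ?_ ?_
  · ext j
    rw [cov, C0, empty_union]
    simp only [mem_biUnion, mem_sdiff, hA, hB, C, mem_filter, mem_range]
    constructor
    · rintro ⟨i, ⟨hi, hi'⟩, hj, hij⟩
      exact ⟨hj, fun hh => nsub i hi j hj hi' hh.2 ((t_adj i hi j hj).1.1 hij)⟩
    · rintro ⟨hj, hn⟩
      have hX : (tri j)ᶜ ∉ 𝒜 := fun hh => hn ⟨hj, hh⟩
      obtain ⟨Y, hY, hXY⟩ := (comp ha hX).1 (hmax _ hX)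
      have c4 := (t_card j hj).2
      rcases hl Y hY with h3 | h3
      · rcases hXY with hXY | hXY
        · have := card_le_card hXY
          omega
        · obtain ⟨i, hi, rfl⟩ := t_surj Y h3
          exact ⟨i, ⟨hi, hY⟩, hj, (t_adj i hi j hj).1.2 hXY⟩
      · exfalso
        rcases hXY with hXY | hXY
        · exact hX (eq_of_subset_of_card_le hXY (by omega) ▸ hY)
        · exact hX (eq_of_subset_of_card_le hXY (by omega) ▸ hY)
  · ext i
    rw [cov, C0, empty_union]
    simp only [mem_biUnion, mem_sdiff, hA, hB, C, mem_filter, mem_range]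
    constructor
    · rintro ⟨j, ⟨hj, hj'⟩, hi, hij⟩
      exact ⟨hi, fun hh => nsub i hi j hj hh.2 hj' ((t_adj i hi j hj).2.1 hij)⟩
    · rintro ⟨hi, hn⟩
      have hX : tri i ∉ 𝒜 := fun hh => hn ⟨hi, hh⟩
      obtain ⟨Y, hY, hXY⟩ := (comp ha hX).1 (hmax _ hX)
      have c3 := (t_card i hi).1
      rcases hl Y hY with h3 | h3
      · exfalso
        rcases hXY with hXY | hXY
        · exact hX (eq_of_subset_of_card_le hXY (by omega) ▸ hY)
        · exact hX (eq_of_subset_of_card_le hXY (by omega) ▸ hY)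
      · rcases hXY with hXY | hXY
        · obtain ⟨j, hj, rfl⟩ := t_surj' Y h3
          exact ⟨j, ⟨hj, hY⟩, hi, (t_adj i hi j hj).2.2 hXY⟩
        · have := card_le_card hXY
          omega
  · have e : 𝒜 = A.image tri ∪ B.image fun i => (tri i)ᶜ := by
      ext X
      simp only [mem_union, mem_image, hA, hB, mem_filter, mem_range]
      constructor
      · intro hX
        rcases hl X hX with h3 | h3
        · obtain ⟨i, hi, rfl⟩ := t_surj X h3
          exact Or.inl ⟨i, ⟨hi, hX⟩, rfl⟩
        · obtain ⟨i, hi, rfl⟩ := t_surj' X h3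
          exact Or.inr ⟨i, ⟨hi, hX⟩, rfl⟩
      · rintro (⟨i, ⟨-, hi⟩, rfl⟩ | ⟨i, ⟨-, hi⟩, rfl⟩) <;> exact hi
    have lt : ∀ {p : ℕ → Prop} [DecidablePred p] {i : ℕ},
        i ∈ (((range 35).filter p : Finset ℕ) : Set ℕ) → i < 35 := fun hi =>
      mem_range.1 (mem_filter.1 (mem_coe.1 hi)).1
    rw [← hc]
    conv_rhs => rw [e]
    rw [card_union_of_disjoint, card_image_of_injOn, card_image_of_injOn]
    · intro i hi j hj hij
      exact t_inj i (lt hi) j (lt hj) (compl_injective hij)
    · intro i hi j hj hij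
      exact t_inj i (lt hi) j (lt hj) hij
    · rw [disjoint_left]
      intro X h1 h2
      obtain ⟨i, hi, rfl⟩ := mem_image.1 h1
      obtain ⟨j, hj, e'⟩ := mem_image.1 h2
      have := (t_card i (lt hi)).1
      have := (t_card j (lt hj)).2
      have := congrArg card e'
      omega

def lines : Finset (Finset (Fin 7)) :=
  {{0, 1, 2}, {0, 3, 4}, {0, 5, 6}, {1, 3, 5}, {1, 4, 6}, {2, 3, 6}, {2, 4, 5}}

def fano : Finset (Finset (Fin 7)) := lines ∪ lines.image compl

theorem f1 : ∀ X ∈ fano, ∀ Y ∈ fano, X ≠ Y → ¬ X ⊆ Y := by decide +kernel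
theorem f2 : ∀ X ∉ fano, ∃ Y ∈ fano, X ⊆ Y ∨ Y ⊆ X := by decide +kernel
theorem f3 : (∀ X ∈ fano, X.card = 3 ∨ X.card = 3 + 1) ∧ fano.card = 14 := by decide +kernel

theorem mem14 : 14 ∈ S 7 3 := by
  have ha : IsAntichain (· ⊆ ·) (fano : Set (Finset (Fin 7))) :=
    fun X hX Y hY h => f1 X hX Y hY h
  exact ⟨fano, f3.1, ha, fun X hX => (comp ha hX).2 (f2 X hX), f3.2⟩

theorem T73 : T 7 3 = 29 := by
  have : ⌈(((7 : ℕ) : ℚ) - ((3 : ℕ) : ℚ)) / 2⌉ = 2 := by
    rw [Int.ceil_eq_iff]; norm_num
  unfold T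
  rw [this]
  decide

theorem result :
    (14 ∈ S 7 3 ∧ 15 ∉ S 7 3 ∧ T 7 3 = 29) ∧
    ¬ ∀ n l : ℕ, 3 ≤ l → (l : ℤ) ≤ ⌈(n : ℚ) / 2⌉ →
      ∀ m : ℕ, sInf (S n l) ≤ m → (m : ℤ) ≤ T n l → m ∈ S n l := by
  refine ⟨⟨mem14, not15, T73⟩, fun h => not15 (h 7 3 le_rfl ?_ 15 ?_ ?_)⟩
  · have : ⌈((7 : ℕ) : ℚ) / 2⌉ = 4 := by rw [Int.ceil_eq_iff]; norm_num
    rw [this]; decide
  · exact (Nat.sInf_le mem14).trans (by norm_num)
  · rw [T73]; decide

end Pool.Agent.Results.MP_6c6cee_co.No
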